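import Mathlib
import Pool.Agent.Helper86.AP.Fin
import Pool.Agent.Helper89.PX.BCC
import Pool.Agent.Helper69.AP.ST
import Pool.Agent.Helper59.AP.SIDE
import Pool.Agent.Helper70.AP.SEC
import Pool.Agent.Helper7.AP.MRG
import Pool.Agent.Helper3.AP.GENB
import Pool.Agent.Helper84.AP.LNK
import Pool.Agent.Helper54.AP.COMB
import Pool.Agent.Helper49.AP.LEL
import Pool.Agent.Helper27.AP.PC
import Pool.Agent.Helper2.AP.CN1
import Pool.Agent.Helper95.AP.ADMW
import Pool.Agent.Helper90.AP.PB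
import Pool.Agent.Helper73.AP.TRI
import Pool.Agent.Helper89.AP.GENA
import Pool.Agent.Helper69.AP.NG1
import Pool.Agent.Helper3.AP.SUBM
import Pool.Agent.Helper12.AP.WLE
import Pool.Agent.Helper27.AP.REP
import Pool.Agent.Helper49.AP.CN2
import Pool.Agent.Helper85.AP.PRI
import Pool.Agent.Helper49.AP.NG2
import Pool.Agent.Helper35.AP.CV
import Pool.Agent.Helper35.AP.LIM
import Pool.Agent.Helper35.AP.PA
import Pool.Agent.Helper83.AP.CJ2
import Pool.Agent.Helper86.AP.CJ1
import Pool.Agent.Helper86.AP.NUM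
import Pool.Agent.Helper86.AP.CN3

set_option autoImplicit false

namespace Pool.Agent.Results.MP_bec853_al.AsymptoticNumber

/-- `u` is positive: in its reduced word no generator appears with a negative exponent. -/
def IsPositive {r : ℕ} (u : FreeGroup (Fin r)) : Prop := ∀ x ∈ u.toWord, x.2 = true

/-- `u` is potentially positive: some automorphism of the free group maps it to a positive
element. -/
def PotentiallyPositive {r : ℕ} (u : FreeGroup (Fin r)) : Prop :=
  ∃ f : FreeGroup (Fin r) ≃* FreeGroup (Fin r), IsPositive (f u)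

/-- the number of potentially positive elements of length `n` -/
noncomputable def p (r n : ℕ) : ℕ :=
  {u : FreeGroup (Fin r) | u.norm = n ∧ PotentiallyPositive u}.ncard

/-- the exponential growth rate `limsup p_r(n)^(1/n)` -/
noncomputable def growth (r : ℕ) : ℝ :=
  Filter.limsup (fun n : ℕ => (p r n : ℝ) ^ ((1 : ℝ) / n)) Filter.atTop

/-- For every `r ≥ 100` the number of potentially positive elements of length `n` is asymptotic to
`c_r n (2r - 3)^n` with `c_r = 8 r (r - 1) (r - 2) / ((2r - 3)^2 (2r - 5))`, and the growth rate is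
`2r - 3`. -/
theorem result (r : ℕ) (hr : 100 ≤ r) :
    Filter.Tendsto (fun n : ℕ => (p r n : ℝ) / (n * (2 * (r : ℝ) - 3) ^ n)) Filter.atTop
      (nhds (8 * r * (r - 1) * (r - 2) / ((2 * (r : ℝ) - 3) ^ 2 * (2 * (r : ℝ) - 5)))) ∧
    growth r = 2 * r - 3 := by
  have h1 := Pool.Agent.Helper86.AP.main
    Pool.Agent.Helper3.AP.tSUBM
    Pool.Agent.Helper12.AP.tWLE
    Pool.Agent.Helper95.AP.tADMW
    Pool.Agent.Helper89.AP.tGENA
    Pool.Agent.Helper3.AP.tGENB
    Pool.Agent.Helper86.AP.tNUM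
    Pool.Agent.Helper73.AP.tTRI
    Pool.Agent.Helper35.AP.tPA
    Pool.Agent.Helper90.AP.tPB
    Pool.Agent.Helper27.AP.tPC
    Pool.Agent.Helper49.AP.tLEL
    Pool.Agent.Helper59.AP.tSIDE
    Pool.Agent.Helper54.AP.tCOMB
    Pool.Agent.Helper69.AP.tST
    Pool.Agent.Helper27.AP.tREP
    Pool.Agent.Helper84.AP.tLNK
    Pool.Agent.Helper7.AP.tMRG
    Pool.Agent.Helper70.AP.tSEC
    Pool.Agent.Helper35.AP.tCV
    Pool.Agent.Helper69.AP.NG.t
    Pool.Agent.Helper49.AP.tNG2
    Pool.Agent.Helper2.AP.tCN1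
    Pool.Agent.Helper49.AP.tCN2
    Pool.Agent.Helper86.AP.tCN3
    Pool.Agent.Helper86.AP.tCJ1
    Pool.Agent.Helper83.AP.tCJ2
    Pool.Agent.Helper35.AP.tLIM
    Pool.Agent.Helper85.AP.tPRI
    hr
  refine ⟨h1.1, ?_⟩
  exact (Pool.Agent.Helper35.PX.tendsto_pp Pool.Agent.Helper89.PX.stmtBCC hr).limsup_eq

end Pool.Agent.Results.MP_bec853_al.AsymptoticNumber
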