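import Mathlib
import Pool.Agent.Helper35.PP.Total

set_option autoImplicit false

namespace Pool.Agent.Results.MP_bec853_al.GrowthUpperBound

/-- `u` is positive: in its reduced word no generator appears with a negative exponent. -/
def IsPositive {r : ℕ} (u : FreeGroup (Fin r)) : Prop := ∀ x ∈ u.toWord, x.2 = true

/-- `u` is potentially positive: some automorphism of the free group maps it to a positive
element. -/
def PotentiallyPositive {r : ℕ} (u : FreeGroup (Fin r)) : Prop :=
  ∃ f : FreeGroup (Fin r) ≃* FreeGroup (Fin r), IsPositive (f u)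

/-- the number of potentially positive elements of length `n` -/
noncomputable def p (r n : ℕ) : ℕ :=
  {u : FreeGroup (Fin r) | u.norm = n ∧ PotentiallyPositive u}.ncard

/-- the exponential growth rate `limsup p_r(n)^(1/n)` -/
noncomputable def growth (r : ℕ) : ℝ :=
  Filter.limsup (fun n : ℕ => (p r n : ℝ) ^ ((1 : ℝ) / n)) Filter.atTop

open Pool.Agent.Helper35.PP in
lemma exists_const (r : ℕ) (hr : 3 ≤ r) :
    ∃ C : ℝ, 1 ≤ C ∧ ∀ n, (p r n : ℝ) ≤ C * (2 * r - 3 + 7 / (r + 1)) ^ n := by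
  have hcard : Fintype.card (Fin r) = r := Fintype.card_fin r
  have hW := W_all_lt_top (α := Fin r) (by rw [hcard]; exact hr)
  rw [hcard] at hW
  set S : Set (List (Fin r × Bool)) := {w | ∃ u : FreeGroup (Fin r), Adm u ∧ w = u.toWord} with hS
  set Wt := W (ENNReal.ofReal (zr r)) S with hWt
  have hz0 : 0 < zr r := zr_pos r
  have hlam : (2 * (r : ℝ) - 3 + 7 / (r + 1)) = 1 / zr r := by
    have hq := (den_pos r).ne'
    have hr1 : (r : ℝ) + 1 ≠ 0 := by positivity
    unfold zr
    rw [one_div_div]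
    field_simp
    ring
  refine ⟨max 1 Wt.toReal, le_max_left _ _, ?_⟩
  intro n
  have h1 := ncard_mul_pow_le (ENNReal.ofReal (zr r)) S n
  have h2 : p r n ≤ (S ∩ {w | w.length = n}).ncard := by
    unfold p
    have hfin : (S ∩ {w : List (Fin r × Bool) | w.length = n}).Finite :=
      (List.finite_length_eq _ n).subset Set.inter_subset_right
    apply Set.ncard_le_ncard_of_injOn FreeGroup.toWord _ FreeGroup.toWord_injective.injOn hfin
    rintro u ⟨hu1, f, hf⟩
    exact ⟨⟨u, adm_of_pos f hf, rfl⟩, hu1⟩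
  have h3 : ((p r n : ℕ) : ENNReal) * ENNReal.ofReal (zr r) ^ n ≤ Wt := by
    refine le_trans ?_ h1
    gcongr
  have h4 : (p r n : ℝ) * zr r ^ n ≤ Wt.toReal := by
    have := ENNReal.toReal_mono hW.ne h3
    rw [ENNReal.toReal_mul, ENNReal.toReal_natCast, ENNReal.toReal_pow,
      ENNReal.toReal_ofReal hz0.le] at this
    exact this
  rw [hlam, one_div, inv_pow, ← div_eq_mul_inv, le_div_iff₀ (by positivity)]
  exact h4.trans (le_max_right _ _)

/-- For every `r ≥ 3`, `p_r(n) ≤ C (2r - 3 + 7/(r+1))^n` for all `n`, so the growth rate of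
potentially positive elements is at most `2r - 3 + 7/(r+1)`. -/
theorem result (r : ℕ) (hr : 3 ≤ r) :
    (∃ C : ℝ, ∀ n, (p r n : ℝ) ≤ C * (2 * r - 3 + 7 / (r + 1)) ^ n) ∧
      growth r ≤ 2 * r - 3 + 7 / (r + 1) := by
  obtain ⟨C, hC1, hC⟩ := exists_const r hr
  refine ⟨⟨C, hC⟩, ?_⟩
  set L : ℝ := 2 * r - 3 + 7 / (r + 1) with hL
  have hr' : (3 : ℝ) ≤ r := by exact_mod_cast hr
  have hL0 : 0 < L := by
    have : 0 < 7 / ((r : ℝ) + 1) := by positivity
    rw [hL]
    linarith
  have hC0 : 0 < C := lt_of_lt_of_le one_pos hC1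
  have hle : ∀ᶠ n : ℕ in Filter.atTop,
      (p r n : ℝ) ^ ((1 : ℝ) / n) ≤ C ^ ((1 : ℝ) / n) * L := by
    filter_upwards [Filter.eventually_gt_atTop 0] with n hn
    have hn' : (0 : ℝ) < n := by exact_mod_cast hn
    calc (p r n : ℝ) ^ ((1 : ℝ) / n) ≤ (C * L ^ n) ^ ((1 : ℝ) / n) :=
          Real.rpow_le_rpow (by positivity) (hC n) (by positivity)
      _ = C ^ ((1 : ℝ) / n) * L := by
          rw [Real.mul_rpow hC0.le (by positivity), ← Real.rpow_natCast, ← Real.rpow_mul hL0.le,
            mul_one_div_cancel hn'.ne', Real.rpow_one]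
  have htend : Filter.Tendsto (fun n : ℕ => C ^ ((1 : ℝ) / n) * L) Filter.atTop (nhds L) := by
    have h1 : Filter.Tendsto (fun n : ℕ => C ^ ((1 : ℝ) / n)) Filter.atTop (nhds (C ^ (0 : ℝ))) :=
      ((Real.continuousAt_const_rpow hC0.ne').tendsto).comp tendsto_one_div_atTop_nhds_zero_nat
    rw [Real.rpow_zero] at h1
    simpa using h1.mul_const L
  have hcob : Filter.IsCoboundedUnder (· ≤ ·) Filter.atTop
      (fun n : ℕ => (p r n : ℝ) ^ ((1 : ℝ) / n)) := by
    apply Filter.IsCoboundedUnder.of_frequently_ge (a := 0)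
    apply Filter.Eventually.frequently
    exact Filter.Eventually.of_forall (fun n => by positivity)
  exact (Filter.limsup_le_limsup hle hcob htend.isBoundedUnder_le).trans htend.limsup_eq.le

end Pool.Agent.Results.MP_bec853_al.GrowthUpperBound
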