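import Mathlib
import Pool.Agent.Helper60.PPL.Main

set_option autoImplicit false

namespace Pool.Agent.Results.MP_bec853_al.SmallRanks

/-- `u` is positive: in its reduced word no generator appears with a negative exponent. -/
def IsPositive {r : ℕ} (u : FreeGroup (Fin r)) : Prop := ∀ x ∈ u.toWord, x.2 = true

/-- `u` is potentially positive: some automorphism of the free group maps it to a positive
element. -/
def PotentiallyPositive {r : ℕ} (u : FreeGroup (Fin r)) : Prop :=
  ∃ f : FreeGroup (Fin r) ≃* FreeGroup (Fin r), IsPositive (f u)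

/-- the number of potentially positive elements of length `n` -/
noncomputable def p (r n : ℕ) : ℕ :=
  {u : FreeGroup (Fin r) | u.norm = n ∧ PotentiallyPositive u}.ncard

/-- the exponential growth rate `limsup p_r(n)^(1/n)` -/
noncomputable def growth (r : ℕ) : ℝ :=
  Filter.limsup (fun n : ℕ => (p r n : ℝ) ^ ((1 : ℝ) / n)) Filter.atTop

/-- Lower bounds for the growth rate `γ_r` of the potentially positive elements in the ranks
`3, 4, 5`: `γ_3 ≥ 4.0632`, `γ_4 ≥ 5.6507 > 5 = 2·4 - 3` and `γ_5 ≥ 7.2466 > 7 = 2·5 - 3`. -/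
theorem result :
    (4.0632 : ℝ) ≤ growth 3 ∧ (5.6507 : ℝ) ≤ growth 4 ∧ (7.2466 : ℝ) ≤ growth 5 :=
  ⟨Pool.Agent.Helper60.PPL.gr_three, Pool.Agent.Helper60.PPL.gr_four,
    Pool.Agent.Helper60.PPL.gr_five⟩

end Pool.Agent.Results.MP_bec853_al.SmallRanks
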